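import Mathlib
import Pool.Agent.Helper917.SAAM.Four

namespace Pool.Agent.Results.MP_7a2f31_al.ClassUpToNine

open Matrix Pool.Agent.Helper917.SAAM

/-- Classification of the maximal SAAMs (`ε = -1`) and maximal SASMs (`ε = 1`) of `M_n(Φ)` up to
equivalence whenever the Witt index of the form `∑ y i ^ 2` on `Φ ^ n` is at most 4; this covers
every field of characteristic different from 2 for all `n ≤ 9`. -/
theorem result {Φ : Type*} [Field Φ] (h2 : (2 : Φ) ≠ 0) (n : ℕ) :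
    (∃ U : Submodule Φ (Fin n → Φ), MaxTotIso U) ∧
    ∀ U : Submodule Φ (Fin n → Φ), MaxTotIso U →
      (n ≤ 9 → Module.finrank Φ U ≤ 4) ∧
      (Module.finrank Φ U ≤ 3 →
        (∀ V, IsMaxAC (-1) V ↔ Equivt (colSpace (-1) U) V) ∧
        (∀ V, IsMaxAC 1 V ↔ Equivt (colSpace 1 U) V)) ∧
      (Module.finrank Φ U = 4 →
        (∃ u w : Fin 4 → (Fin n → Φ), Hyp u w) ∧
        ∀ u w : Fin 4 → (Fin n → Φ), Hyp u w →
          ((∀ V, IsMaxAC (-1) V ↔
              Equivt (colSpace (-1) U) V ∨ Equivt (T2 u w) V ∨ Equivt (T3 u w) V) ∧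
            ¬ Equivt (colSpace (-1) U) (T2 u w) ∧ ¬ Equivt (colSpace (-1) U) (T3 u w) ∧
            ¬ Equivt (T2 u w) (T3 u w)) ∧
          ((∀ V, IsMaxAC 1 V ↔ Equivt (colSpace 1 U) V ∨ Equivt (T1 u w) V) ∧
            ¬ Equivt (colSpace 1 U) (T1 u w))) := by
  refine ⟨?_, fun U hU => ⟨fun hn => ?_, fun hd => ⟨fun V => one_class h2 hU hd (Or.inl rfl) V,
    fun V => one_class h2 hU hd (Or.inr rfl) V⟩, fun hd => ⟨hyp_exists h2 hU.1 (le_of_eq hd.symm),
    fun u w h => ⟨⟨alt_class h2 hU hd.le h, fun hE => ?_, fun hE => ?_, fun hE => ?_⟩,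
      sym_class h2 hU hd.le h, fun hE => ?_⟩⟩⟩⟩
  · obtain ⟨U, hU, -⟩ := exists_maxTotIso_ge (Φ := Φ) (n := n) (U := ⊥)
      (fun u hu v hv => by rw [(Submodule.mem_bot Φ).1 hu]; exact zero_dotProduct v)
    exact ⟨U, hU⟩
  · have := totIso_le hU.1
    omega
  · exact XY_ne (by ring) h (equivt_zero hE (colSpace_isAC (by ring) hU.1).2 _ bX_mem_T2 _ bY_mem_T2)
  · exact XY_ne (by ring) h (equivt_zero hE (colSpace_isAC (by ring) hU.1).2 _ bX_mem_T3 _ bY_mem_T3)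
  · exact XYW_ne h (equivt_triple hE (T2_triple h) _ bX_mem_T3 _ bY_mem_T3 _ bW_mem_T3)
  · exact XY_ne (by ring) h (equivt_zero hE (colSpace_isAC (by ring) hU.1).2 _ bX_mem_T1 _ bY_mem_T1)

end Pool.Agent.Results.MP_7a2f31_al.ClassUpToNine
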